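import Mathlib
import Pool.Agent.Lib.helper11.Mahler

set_option autoImplicit false

namespace Pool.Agent.H.MP_26251e_nt

open PowerSeries Finset Pool.Agent.Lib.helper11.Mahler

noncomputable def u : ℤ⟦X⟧ := 3 * X * geo ℤ 1 ^ 2

lemma g1 : geo ℤ 1 * (1 - X) = 1 := by simpa using geo_mul (R := ℤ) 1 one_ne_zero

lemma g3 : geo ℤ 3 * (1 - X ^ 3) = 1 := geo_mul (R := ℤ) 3 three_ne_zero

lemma g13 : geo ℤ 1 = (1 + X + X ^ 2) * geo ℤ 3 := by
  linear_combination (-geo ℤ 1) * g3 + (1 + X + X ^ 2) * geo ℤ 3 * g1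

lemma ug : (1 + u) * geo ℤ 3 = geo ℤ 1 ^ 3 := by
  rw [u]
  linear_combination (-geo ℤ 3 * (1 + geo ℤ 1 * (1 - X))) * g1 - geo ℤ 1 ^ 2 * g13

lemma expand_u : expand 3 three_ne_zero u = 3 * X ^ 3 * geo ℤ 3 ^ 2 := by
  simp [u, expand_geo, map_ofNat]

lemma U_X : U 3 (X : ℤ⟦X⟧) = 0 := by
  ext n
  rw [coeff_U, coeff_X, if_neg (by omega), map_zero]

lemma U_X2 : U 3 (X ^ 2 : ℤ⟦X⟧) = 0 := by
  ext n
  rw [coeff_U, coeff_X_pow, if_neg (by omega), map_zero]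

lemma U_int (c : ℤ) (f : ℤ⟦X⟧) : U 3 ((c : ℤ⟦X⟧) * f) = c * U 3 f := by
  rw [← zsmul_eq_mul, ← zsmul_eq_mul, map_zsmul]

lemma U_split (a b c : ℤ⟦X⟧) : U 3 (1 * expand 3 three_ne_zero a + X * expand 3 three_ne_zero b +
    X ^ 2 * expand 3 three_ne_zero c) = a := by
  rw [map_add, map_add, U_mul_expand, U_mul_expand, U_mul_expand, U_X, U_X2, U_one 3 three_ne_zero]
  ring

lemma u0 : U 3 (u ^ 0) = 1 := by rw [pow_zero, U_one 3 three_ne_zero]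

lemma u1 : U 3 (u ^ 1) = 3 * u := by
  rw [← U_split (3 * u) ((3 + 6 * X) * geo ℤ 1 ^ 2) ((6 + 3 * X) * geo ℤ 1 ^ 2)]
  congr 1
  simp only [map_mul, map_add, map_pow, map_ofNat, expand_X, expand_geo, u]
  rw [g13]
  ring

lemma u2 : U 3 (u ^ 2) = 12 * u + 27 * u ^ 2 := by
  have e : 12 * u + 27 * u ^ 2 = 9 * (4 * X + 19 * X ^ 2 + 4 * X ^ 3) * geo ℤ 1 ^ 4 := by
    rw [u]
    linear_combination (-36 * X * geo ℤ 1 ^ 2 * (1 + geo ℤ 1 * (1 - X))) * g1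
  rw [e, ← U_split (9 * (4 * X + 19 * X ^ 2 + 4 * X ^ 3) * geo ℤ 1 ^ 4)
    (9 * (10 * X + 16 * X ^ 2 + X ^ 3) * geo ℤ 1 ^ 4) (9 * (1 + 16 * X + 10 * X ^ 2) * geo ℤ 1 ^ 4)]
  congr 1
  simp only [map_mul, map_add, map_pow, map_ofNat, map_one, expand_X, expand_geo, u]
  rw [g13]
  ring

lemma rec_u (f : ℤ⟦X⟧) :
    U 3 (f * u ^ 3) = 9 * u * (U 3 (f * u ^ 2) + 2 * U 3 (f * u) + U 3 f) := by
  have h : u ^ 3 = (1 + u) ^ 2 * expand 3 three_ne_zero (9 * u) := by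
    rw [map_mul, expand_u, map_ofNat]
    have : u ^ 3 = 27 * X ^ 3 * (geo ℤ 1 ^ 3) ^ 2 := by
      rw [u]
      ring
    rw [this, ← ug]
    ring
  rw [h, ← mul_assoc, U_mul_expand, show f * (1 + u) ^ 2 = f * u ^ 2 + ((2 : ℤ) : ℤ⟦X⟧) * (f * u) + f
    by push_cast; ring, map_add, map_add, U_int]
  push_cast
  ring

lemma urec (k : ℕ) :
    U 3 (u ^ (k + 3)) = 9 * u * (U 3 (u ^ (k + 2)) + 2 * U 3 (u ^ (k + 1)) + U 3 (u ^ k)) := by
  rw [pow_add, rec_u, ← pow_add, ← pow_succ]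

lemma u3 : U 3 (u ^ 3) = (9) * u ^ 1 + (162) * u ^ 2 + (243) * u ^ 3 := by
  rw [urec 0, u2, u1, u0]
  ring

lemma u4 : U 3 (u ^ 4) = (324) * u ^ 2 + (1944) * u ^ 3 + (2187) * u ^ 4 := by
  rw [urec 1, u3, u2, u1]
  ring

lemma u5 : U 3 (u ^ 5) = (270) * u ^ 2 + (6075) * u ^ 3 + (21870) * u ^ 4 + (19683) * u ^ 5 := by
  rw [urec 2, u4, u3, u2]
  ring

lemma u6 : U 3 (u ^ 6) = (81) * u ^ 2 + (9720) * u ^ 3 + (91854) * u ^ 4 + (236196) * u ^ 5 + (177147) * u ^ 6 := by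
  rw [urec 3, u5, u4, u3]
  ring

lemma u7 : U 3 (u ^ 7) = (8505) * u ^ 3 + (214326) * u ^ 4 + (1240029) * u ^ 5 + (2480058) * u ^ 6 + (1594323) * u ^ 7 := by
  rw [urec 4, u6, u5, u4]
  ring

lemma u8 : U 3 (u ^ 8) = (3888) * u ^ 3 + (306180) * u ^ 4 + (3779136) * u ^ 5 + (15588936) * u ^ 6 + (25509168) * u ^ 7 + (14348907) * u ^ 8 := by
  rw [urec 5, u7, u6, u5]
  ring

lemma u9 : U 3 (u ^ 9) = (729) * u ^ 3 + (275562) * u ^ 4 + (7440174) * u ^ 5 + (58458510) * u ^ 6 + (186535791) * u ^ 7 + (258280326) * u ^ 8 + (129140163) * u ^ 9 := by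
  rw [urec 6, u8, u7, u6]
  ring

lemma u10 : U 3 (u ^ 10) = (153090) * u ^ 4 + (9920232) * u ^ 5 + (146146275) * u ^ 6 + (829047960) * u ^ 7 + (2152336050) * u ^ 8 + (2582803260) * u ^ 9 + (1162261467) * u ^ 10 := by
  rw [urec 7, u9, u8, u7]
  ring

lemma u11 : U 3 (u ^ 11) = (48114) * u ^ 4 + (9093546) * u ^ 5 + (257217444) * u ^ 6 + (2507870079) * u ^ 7 + (11048658390) * u ^ 8 + (24149210481) * u ^ 9 + (25569752274) * u ^ 10 + (10460353203) * u ^ 11 := by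
  rw [urec 8, u10, u9, u8]
  ring

lemma u12 : U 3 (u ^ 12) = (6561) * u ^ 4 + (5668704) * u ^ 5 + (327367656) * u ^ 6 + (5471716536) * u ^ 7 + (39172516110) * u ^ 8 + (140504497344) * u ^ 9 + (264995614476) * u ^ 10 + (251048476872) * u ^ 11 + (94143178827) * u ^ 12 := by
  rw [urec 9, u11, u10, u9]
  ring

lemma u13 : U 3 (u ^ 13) = (2302911) * u ^ 5 + (303984252) * u ^ 6 + (8891539371) * u ^ 7 + (101848541886) * u ^ 8 + (570799520460) * u ^ 9 + (1722471494094) * u ^ 10 + (2855676424419) * u ^ 11 + (2447722649502) * u ^ 12 + (847288609443) * u ^ 13 := by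
  rw [urec 10, u12, u11, u10]
  ring

lemma u14 : U 3 (u ^ 14) = (551124) * u ^ 5 + (204604785) * u ^ 6 + (10943433072) * u ^ 7 + (201085582698) * u ^ 8 + (1721180092464) * u ^ 9 + (7883619530661) * u ^ 10 + (20502292277880) * u ^ 11 + (30314103582294) * u ^ 12 + (23724081064404) * u ^ 13 + (7625597484987) * u ^ 14 := by
  rw [urec 11, u13, u12, u11]
  ring

lemma u15 : U 3 (u ^ 15) = (59049) * u ^ 5 + (97430850) * u ^ 6 + (10259468505) * u ^ 7 + (307784055150) * u ^ 8 + (3995596643220) * u ^ 9 + (27029552676552) * u ^ 10 + (104342023199925) * u ^ 11 + (238182242432310) * u ^ 12 + (317733228541125) * u ^ 13 + (228767924549610) * u ^ 14 + (68630377364883) * u ^ 15 := by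
  rw [urec 12, u14, u13, u12]
  ring

lemma u16 : U 3 (u ^ 16) = (31177872) * u ^ 6 + (7295622048) * u ^ 7 + (369340866180) * u ^ 8 + (7306233861888) * u ^ 9 + (72078807137472) * u ^ 10 + (400673369087712) * u ^ 11 + (1333820557620936) * u ^ 12 + (2711323550217600) * u ^ 13 + (3294258113514384) * u ^ 14 + (2196172075676256) * u ^ 15 + (617673396283947) * u ^ 16 := by
  rw [urec 13, u15, u14, u13]
  ring

noncomputable def h : Polynomial ℤ := (444488) * Polynomial.X ^ 0 + (2417892996) * Polynomial.X ^ 1 + (1196323247232) * Polynomial.X ^ 2 + (152510870911932) * Polynomial.X ^ 3 + (7735611275359632) * Polynomial.X ^ 4 + (196064370642144204) * Polynomial.X ^ 5 + (2839634585963768448) * Polynomial.X ^ 6 + (25555797050514807708) * Polynomial.X ^ 7 + (150726782884952152728) * Polynomial.X ^ 8 + (601674721308281708028) * Polynomial.X ^ 9 + (1651257410631641283528) * Polynomial.X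 ^ 10 + (3115889226857770200504) * Polynomial.X ^ 11 + (3969174185907813693576) * Polynomial.X ^ 12 + (3258854721568444915152) * Polynomial.X ^ 13 + (1556181178759286886528) * Polynomial.X ^ 14 + (328256967394537077627) * Polynomial.X ^ 15

lemma L1 : U 3 ((1 + u) ^ 8) = (1) * u ^ 0 + (864) * u ^ 1 + (49896) * u ^ 2 + (833976) * u ^ 3 + (5970510) * u ^ 4 + (21415104) * u ^ 5 + (40389516) * u ^ 6 + (38263752) * u ^ 7 + (14348907) * u ^ 8 := by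
  have e : (1 + u) ^ 8 = ((1 : ℤ) : ℤ⟦X⟧) * u ^ 0 + ((8 : ℤ) : ℤ⟦X⟧) * u ^ 1 + ((28 : ℤ) : ℤ⟦X⟧) * u ^ 2 + ((56 : ℤ) : ℤ⟦X⟧) * u ^ 3 + ((70 : ℤ) : ℤ⟦X⟧) * u ^ 4 + ((56 : ℤ) : ℤ⟦X⟧) * u ^ 5 + ((28 : ℤ) : ℤ⟦X⟧) * u ^ 6 + ((8 : ℤ) : ℤ⟦X⟧) * u ^ 7 + ((1 : ℤ) : ℤ⟦X⟧) * u ^ 8 := by
    push_cast
    ring
  rw [e]
  simp only [map_add, U_int, u0, u1, u2, u3, u4, u5, u6, u7, u8]
  push_cast
  ring

lemma LL : U 3 (U 3 ((1 + u) ^ 8) * (1 + u) ^ 8) = 1 + 27 * (u * Polynomial.aeval u h) := by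
  have e : U 3 ((1 + u) ^ 8) * (1 + u) ^ 8 = ((1 : ℤ) : ℤ⟦X⟧) * u ^ 0 + ((872 : ℤ) : ℤ⟦X⟧) * u ^ 1 + ((56836 : ℤ) : ℤ⟦X⟧) * u ^ 2 + ((1257392 : ℤ) : ℤ⟦X⟧) * u ^ 3 + ((14087860 : ℤ) : ℤ⟦X⟧) * u ^ 4 + ((95385224 : ℤ) : ℤ⟦X⟧) * u ^ 5 + ((429128416 : ℤ) : ℤ⟦X⟧) * u ^ 6 + ((1356548048 : ℤ) : ℤ⟦X⟧) * u ^ 7 + ((3116653552 : ℤ) : ℤ⟦X⟧) * u ^ 8 + ((5305146408 : ℤ) : ℤ⟦X⟧) * u ^ 9 + ((6744947436 : ℤ) : ℤ⟦X⟧) * u ^ 10 + ((6392035296 : ℤ) : ℤ⟦X⟧) * u ^ 11 + ((4455391392 : ℤ) : ℤ⟦X⟧) * u ^ 12 + ((2219455080 : ℤ) : ℤ⟦X⟧) * u ^ 13 + ((748268928 : ℤ) : ℤ⟦X⟧) * u ^ 14 + ((153055008 : ℤ) : ℤ⟦X⟧) * u ^ 15 + ((14348907 : ℤ) : ℤ⟦X⟧) * u ^ 16 := by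
    rw [L1]
    push_cast
    ring
  rw [e]
  simp only [map_add, U_int, u0, u1, u2, u3, u4, u5, u6, u7, u8, u9, u10, u11, u12, u13, u14, u15, u16, h, map_mul, map_pow,
    map_ofNat, Polynomial.aeval_X]
  push_cast
  ring

lemma step_pow (k : ℕ) : ∃ p : Polynomial ℤ,
    U 3 (u * u ^ k) = 3 * (u * Polynomial.aeval u p) := by
  induction k using Nat.strong_induction_on with
  | _ k ih =>
    rcases k with _ | _ | _ | k
    · refine ⟨1, ?_⟩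
      rw [← pow_succ', u1, map_one]
      ring
    · refine ⟨4 + 9 * Polynomial.X, ?_⟩
      rw [← pow_succ', u2]
      simp only [map_add, map_mul, map_ofNat, Polynomial.aeval_X]
      ring
    · refine ⟨3 + 18 * Polynomial.X + 36 * Polynomial.X + 81 * Polynomial.X ^ 2, ?_⟩
      rw [← pow_succ', u3]
      simp only [map_add, map_mul, map_pow, map_ofNat, Polynomial.aeval_X]
      ring
    · obtain ⟨p, hp⟩ := ih k (by omega)
      obtain ⟨q, hq⟩ := ih (k + 1) (by omega)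
      obtain ⟨s, hs⟩ := ih (k + 2) (by omega)
      refine ⟨9 * Polynomial.X * (s + 2 * q + p), ?_⟩
      rw [show u * u ^ (k + 1 + 1 + 1) = u * u ^ k * u ^ 3 by ring, rec_u, mul_assoc _ _ u,
        ← pow_succ, mul_assoc _ _ (u ^ 2), ← pow_add, hp, hq, hs]
      simp only [map_add, map_mul, map_ofNat, Polynomial.aeval_X]
      ring

lemma step (p : Polynomial ℤ) : ∃ q : Polynomial ℤ,
    U 3 (u * Polynomial.aeval u p) = 3 * (u * Polynomial.aeval u q) := by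
  induction p using Polynomial.induction_on' with
  | add p q hp hq =>
    obtain ⟨a, ha⟩ := hp
    obtain ⟨b, hb⟩ := hq
    refine ⟨a + b, ?_⟩
    rw [map_add, mul_add, map_add, ha, hb, map_add]
    ring
  | monomial k c =>
    obtain ⟨a, ha⟩ := step_pow k
    refine ⟨c * a, ?_⟩
    rw [Polynomial.aeval_monomial, mul_left_comm, eq_intCast, U_int, ha, map_mul, map_intCast]
    ring

noncomputable def P (m N : ℕ) : ℤ⟦X⟧ := geo ℤ 1 ^ m * ∏ i ∈ range N, geo ℤ (3 ^ i) ^ (2 * m)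

lemma P_succ (m N : ℕ) : P m (N + 1) = (1 + u) ^ m * expand 3 three_ne_zero (P m N) := by
  rw [P, P, prod_range_succ', map_mul, map_prod]
  simp only [map_pow, expand_geo, ← pow_succ', pow_zero, mul_one]
  rw [← mul_assoc ((1 + u) ^ m), ← mul_pow, ug]
  ring

lemma dvd_A (m t : ℕ) (p : Polynomial ℤ) (N n : ℕ) (h : t ≤ N) :
    3 ^ (t + 1) ∣ coeff (3 ^ t * n) (u * Polynomial.aeval u p * P m N) := by
  induction t generalizing p N with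
  | zero =>
    have e : u = ((3 : ℤ) : ℤ⟦X⟧) * (X * geo ℤ 1 ^ 2) := by
      rw [u]
      push_cast
      ring
    rw [mul_assoc]
    generalize Polynomial.aeval u p * P m N = F
    rw [e, mul_assoc, ← zsmul_eq_mul, map_zsmul, smul_eq_mul]
    exact dvd_mul_right _ _
  | succ t ih =>
    obtain ⟨N, rfl⟩ : ∃ M, N = M + 1 := ⟨N - 1, by omega⟩
    obtain ⟨q, hq⟩ := step (p * (1 + Polynomial.X) ^ m)
    rw [map_mul (Polynomial.aeval u), map_pow, map_add, map_one, Polynomial.aeval_X,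
      ← mul_assoc] at hq
    rw [pow_succ' 3 t, mul_assoc 3, ← coeff_U, P_succ, ← mul_assoc, U_mul_expand, hq, mul_assoc,
      show (3 : ℤ⟦X⟧) = ((3 : ℤ) : ℤ⟦X⟧) by push_cast; rfl, ← zsmul_eq_mul, map_zsmul, smul_eq_mul,
      pow_succ']
    exact mul_dvd_mul_left _ (ih q N (by omega))

theorem main (t n : ℕ) : 3 ^ (t + 4) ∣ coeff (3 ^ 2 * (3 ^ t * n)) (P 8 (3 ^ 2 * (3 ^ t * n) + 1)) -
    coeff (3 ^ t * n) (P 8 (3 ^ t * n + 1)) := by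
  have hA := fun N => dvd_A 8 t h N n
  generalize 3 ^ t * n = a at *
  have st : ∀ b M, b + 1 ≤ M → coeff b (P 8 (b + 1)) = coeff b (P 8 M) := fun b M hM =>
    (coeff_prod_stable 3 16 b (by norm_num) _ _ _
      ((Nat.lt_succ_self b).trans (Nat.lt_pow_self (by norm_num))) hM).symm
  rw [st _ (9 * a + t + 1 + 1 + 1) (by omega), st a (9 * a + t + 1) (by omega),
    show 3 ^ 2 * a = 3 * (3 * a) by ring, ← coeff_U, ← coeff_U, P_succ, U_mul_expand, P_succ,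
    ← mul_assoc, U_mul_expand, LL, add_mul, one_mul, map_add, add_sub_cancel_left, mul_assoc,
    show (27 : ℤ⟦X⟧) = ((27 : ℤ) : ℤ⟦X⟧) by push_cast; rfl, ← zsmul_eq_mul, map_zsmul, smul_eq_mul,
    show (3 : ℤ) ^ (t + 4) = 27 * 3 ^ (t + 1) by ring]
  exact mul_dvd_mul_left _ (hA _ (by omega))

end Pool.Agent.H.MP_26251e_nt
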